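import Pool.Agent.Lib_helper69.HM.B4
import Pool.Agent.Lib_helper69.HM.R3
import Pool.Agent.Lib_helper69.HM.S2
import Pool.Agent.Lib_helper12.HM.K

open MeasureTheory Finset Filter
open scoped ENNReal

namespace Pool.Agent.HM

theorem T1_box (A : Finset (ℤ × ℤ)) : ∃ n : ℕ, A ⊆ box n := by
  refine ⟨∑ x ∈ A, (x.1.natAbs + x.2.natAbs), fun x hx => ?_⟩
  have h := Finset.single_le_sum (f := fun x : ℤ × ℤ => x.1.natAbs + x.2.natAbs)
    (fun i _ => Nat.zero_le _) hx
  simp only [box, Finset.mem_product, Finset.mem_Icc]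
  have h1 : x.1.natAbs ≤ ∑ x ∈ A, (x.1.natAbs + x.2.natAbs) := by omega
  have h2 : x.2.natAbs ≤ ∑ x ∈ A, (x.1.natAbs + x.2.natAbs) := by omega
  have h3 : ((x.1.natAbs : ℕ) : ℤ) ≤ ((∑ x ∈ A, (x.1.natAbs + x.2.natAbs) : ℕ) : ℤ) := by
    exact_mod_cast h1
  have h4 : ((x.2.natAbs : ℕ) : ℤ) ≤ ((∑ x ∈ A, (x.1.natAbs + x.2.natAbs) : ℕ) : ℤ) := by
    exact_mod_cast h2
  have h5 := abs_le.1 (Int.abs_eq_natAbs x.1 ▸ h3)
  have h6 := abs_le.1 (Int.abs_eq_natAbs x.2 ▸ h4)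
  exact ⟨⟨h5.1, h5.2⟩, ⟨h6.1, h6.2⟩⟩

/-- Theorem (1): logarithmic bound on the torus with mass, uniformly in the mass. -/
theorem torus_log {ρ : ℝ → ℝ} (hρ : EdgeWeight ρ) :
    ∃ C : ℝ, 0 < C ∧ ∀ m : ℝ, 0 < m → ∀ x : ℤ × ℤ, ∃ N₀ : ℕ, ∀ N ≥ N₀,
      ∫ f, (f (proj N false x) - f 0) ^ 2 ∂muT ρ m N false ≤
        C * Real.log (2 + |(x.1 : ℝ)| + |(x.2 : ℝ)|) := by
  obtain ⟨K0, hK0, hK⟩ := kernel
  obtain ⟨v, hv, hgrad⟩ := grad_sq hρ
  refine ⟨K0 * v + 1, by positivity, fun m hm x => ?_⟩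
  obtain ⟨C6, hC6, h6⟩ := sixth hρ hm
  set L : ℝ := 32 * C6 + 1 with hLdef
  have hL1 : 1 ≤ L := by linarith
  have hL : 0 < L := by linarith
  have hL4 : 8 * C6 / L ^ 4 ≤ 1 / 4 := by
    rw [div_le_iff₀ (by positivity)]
    have h1 : L ≤ L ^ 4 := by
      calc L = L ^ 1 := (pow_one L).symm
        _ ≤ L ^ 4 := pow_le_pow_right₀ hL1 (by norm_num)
    nlinarith
  by_contra hcon
  push Not at hcon
  set Bad : Set ℕ := {N | (K0 * v + 1) * Real.log (2 + |(x.1 : ℝ)| + |(x.2 : ℝ)|) <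
    ∫ f, (f (proj N false x) - f 0) ^ 2 ∂muT ρ m N false} with hBad
  have hfr : ∃ᶠ N in atTop, N ∈ Bad := by
    rw [Filter.frequently_atTop]
    intro a
    obtain ⟨N, hN, h⟩ := hcon a
    exact ⟨N, hN, h⟩
  have : NeBot (atTop ⊓ 𝓟 Bad) := by
    rwa [← Filter.frequently_mem_iff_neBot]
  set U : Ultrafilter ℕ := Ultrafilter.of (atTop ⊓ 𝓟 Bad) with hU
  have hUle : (U : Filter ℕ) ≤ atTop ⊓ 𝓟 Bad := Ultrafilter.of_le _
  have hUtop : (U : Filter ℕ) ≤ atTop := hUle.trans inf_le_left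
  have hUbad : ∀ᶠ N in (U : Filter ℕ), N ∈ Bad :=
    (hUle.trans inf_le_right) (mem_principal_self _)
  have hlim : ∀ y : ℤ × ℤ, ∃ a ∈ Set.Icc (0 : ℝ) (L ^ 2),
      Tendsto (fun N => dN ρ m L N false y) (U : Filter ℕ) (nhds a) := by
    intro y
    have h0 : ∀ᶠ N in (U : Filter ℕ), dN ρ m L N false y ∈ Set.Icc (0 : ℝ) (L ^ 2) :=
      Filter.Eventually.of_forall fun N =>
        ⟨dN_nonneg hρ hm hL.le N false y, dN_le hρ hm hL.le N false y⟩
    have h1 := (isCompact_Icc (a := (0 : ℝ)) (b := L ^ 2)).ultrafilter_le_nhds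
      (U.map fun N => dN ρ m L N false y) (by
        rw [Filter.le_principal_iff]
        exact h0)
    obtain ⟨a, ha, h2⟩ := h1
    exact ⟨a, ha, h2⟩
  choose D hD hDlim using hlim
  have hDlim' : ∀ y : ℤ × ℤ, Tendsto (fun N => dN ρ m L N true y) (U : Filter ℕ) (nhds (D y)) := by
    intro y
    have h1 := (hDlim y).sub ((same_limit hρ hm hL y).mono_left hUtop)
    simpa using h1
  have key := hK D (fun y => (hD y).1) ?_ ?_ ?_ ?_ ?_ ?_ x
  rotate_left
  · refine ⟨1 / m ^ 2, fun A => ?_⟩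
    obtain ⟨n, hn⟩ := T1_box A
    refine le_of_tendsto (tendsto_finsetSum A fun y _ => hDlim y) ?_
    filter_upwards [hUtop (eventually_ge_atTop (2 * n))] with N hN
    exact dN_sum_le hρ hm hL.le false hN hn
  · intro y
    refine tendsto_nhds_unique (hDlim (-y.1, y.2)) ?_
    have : (fun N => dN ρ m L N false (-y.1, y.2)) = fun N => dN ρ m L N false y :=
      funext fun N => dN_refl hρ hm hL.le N y
    rw [this]
    exact hDlim y
  · intro y
    refine tendsto_nhds_unique (hDlim (y.2, y.1)) ?_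
    have : (fun N => dN ρ m L N false (y.2, y.1)) = fun N => dN ρ m L N false y :=
      funext fun N => dN_swap hρ hm hL.le N y
    rw [this]
    exact hDlim y
  · intro A a
    refine ge_of_tendsto (tendsto_finsetSum A fun y _ => tendsto_finsetSum A fun z _ =>
      (hDlim (y - z)).const_mul (a y * a z)) ?_
    exact Filter.Eventually.of_forall fun N => dN_pos_def hρ hm hL.le N false A a
  · intro A a hA
    refine ge_of_tendsto (tendsto_finsetSum A fun y _ => tendsto_finsetSum A fun z _ =>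
      (hDlim (y.1 + z.1, y.2 - z.2)).const_mul (a y * a z)) ?_
    obtain ⟨n, hn⟩ := T1_box A
    filter_upwards [hUtop (eventually_ge_atTop n)] with N hN
    refine dN_axis hρ hm hL.le N A (fun y hy => ⟨hA y hy, ?_⟩) a
    have h1 := hn hy
    simp only [box, Finset.mem_product, Finset.mem_Icc] at h1
    have h2 : (n : ℤ) ≤ N := by exact_mod_cast hN
    linarith [h1.1.2]
  · intro A a hA
    refine ge_of_tendsto (tendsto_finsetSum A fun y _ => tendsto_finsetSum A fun z _ =>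
      (hDlim' (y.1 + z.2, y.2 + z.1)).const_mul (a y * a z)) ?_
    obtain ⟨n, hn⟩ := T1_box A
    filter_upwards [hUtop (eventually_ge_atTop (2 * n))] with N hN
    refine dN_diag hρ hm hL.le N A (fun y hy => ⟨hA y hy, ?_⟩) a
    have h1 := hn hy
    simp only [box, Finset.mem_product, Finset.mem_Icc] at h1
    have h2 : (2 * n : ℤ) ≤ N := by exact_mod_cast hN
    linarith [h1.1.2, h1.2.2]
  have hgr : D 0 - D (1, 0) ≤ v / 2 := by
    refine le_of_tendsto ((hDlim 0).sub (hDlim (1, 0))) ?_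
    refine Filter.Eventually.of_forall fun N => ?_
    have h1 := dN_grad hρ hm hL.le N false (1, 0)
    have h2 := hgrad m hm N false
    linarith
  set lg := Real.log (2 + |(x.1 : ℝ)| + |(x.2 : ℝ)|) with hlg
  have hlg0 : (0.69 : ℝ) ≤ lg := by
    have h1 := Real.log_two_gt_d9
    have h2 : Real.log 2 ≤ lg := Real.log_le_log (by norm_num)
      (by have := abs_nonneg (x.1 : ℝ); have := abs_nonneg (x.2 : ℝ); linarith)
    linarith
  have hfin : D 0 - D x ≤ K0 * v / 2 * lg := by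
    refine key.trans ?_
    have : K0 * (D 0 - D (1, 0)) ≤ K0 * v / 2 := by nlinarith
    exact mul_le_mul_of_nonneg_right this (by linarith)
  have hev : ∀ᶠ N in (U : Filter ℕ), dN ρ m L N false 0 - dN ρ m L N false x <
      K0 * v / 2 * lg + 1 / 16 := by
    have h1 := (hDlim 0).sub (hDlim x)
    exact h1.eventually (gt_mem_nhds (by linarith))
  obtain ⟨N, hN1, hN2⟩ := (hev.and hUbad).exists
  have h3 := dN_untrunc hρ hm h6 hL N false x
  have h4 : (K0 * v + 1) * lg < ∫ f, (f (proj N false x) - f 0) ^ 2 ∂muT ρ m N false := hN2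
  nlinarith

end Pool.Agent.HM
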