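import Pool.Agent.Lib_helper69.HM.H2
import Pool.Agent.Lib_helper69.HM.H3
import Pool.Agent.Lib_helper69.HM.T1
import Pool.Agent.Lib_helper69.HM.LC2

open MeasureTheory Finset
open scoped ENNReal

namespace Pool.Agent.HM

/-- increments in the torus, any two points -/
theorem Dir_incr {ρ : ℝ → ℝ} (hρ : EdgeWeight ρ) {m : ℝ} (hm : 0 < m) (N : ℕ)
    (y y' : ℤ × ℤ) :
    ∫⁻ f, ENNReal.ofReal ((f (proj N false y) - f (proj N false y')) ^ 2) ∂muT ρ m N false =
      ENNReal.ofReal (∫ f, (f (proj N false (y - y')) - f 0) ^ 2 ∂muT ρ m N false) := by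
  have hint : ∀ a b : Tor N, Integrable (fun f : Tor N → ℝ => (f a - f b) ^ 2)
      (muT ρ m N false) := by
    intro a b
    have h1 := muT_integrable_pow hρ hm N false a 2
    have h2 := muT_integrable_pow hρ hm N false b 2
    refine Integrable.mono' ((h1.const_mul 2).add (h2.const_mul 2)) ?_ ?_
    · exact (((measurable_pi_apply a).sub (measurable_pi_apply b)).pow_const 2).aestronglyMeasurable
    · refine Filter.Eventually.of_forall fun f => ?_
      rw [Real.norm_eq_abs, abs_of_nonneg (sq_nonneg _)]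
      simp only [Pi.add_apply]
      nlinarith [sq_nonneg (f a + f b)]
  rw [← ofReal_integral_eq_lintegral_ofReal (hint _ _)
    (Filter.Eventually.of_forall fun f => sq_nonneg _)]
  congr 1
  have hmeas : Measurable fun (f : Tor N → ℝ) (x : Tor N) => f (x + proj N false y') :=
    measurable_pi_lambda _ fun x => measurable_pi_apply _
  have h3 := muT_trans (m := m) hρ N false (proj N false y')
  have e1 : proj N false (y - y') + proj N false y' = proj N false y := by
    rw [← proj_add, sub_add_cancel]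
  conv_rhs => rw [← h3]
  rw [integral_map hmeas.aemeasurable (by rw [h3]; exact (hint _ _).aestronglyMeasurable)]
  simp only [e1, zero_add]

theorem Dir_ne_zero {ρ : ℝ → ℝ} (hρ : EdgeWeight ρ) {m : ℝ} (N : ℕ) :
    lm univ (wt ρ m (stpT N false) univ) 0 ≠ 0 :=
  (lm_wt_pos_const hρ m (stpT N false) univ 0).ne'

/-- Zero boundary values, no mass, every domain in the box: one-sided tail of the height. -/
theorem dirichlet {ρ : ℝ → ℝ} (hρ : EdgeWeight ρ) :
    ∃ C : ℝ, 0 < C ∧ ∀ R : ℕ, 2 ≤ R → ∀ Ω ⊆ box R, ∀ x ∈ Ω,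
      lm Ω (Set.indicator {f | C * Real.log R ^ (3 / 2 : ℝ) < f x} (wt ρ 0 zstp Ω)) 0 ≤
        (1 / 1000) * lm Ω (wt ρ 0 zstp Ω) 0 := by
  obtain ⟨C1, hC1, hT⟩ := torus_log hρ
  refine ⟨176 * Real.sqrt C1, by positivity, fun R hR Ω hΩ x hx => ?_⟩
  have hR' : (2 : ℝ) ≤ R := by exact_mod_cast hR
  set lR := Real.log R with hlR
  have hl : (0.69 : ℝ) ≤ lR := by
    have h1 := Real.log_two_gt_d9
    have h2 : Real.log 2 ≤ lR := Real.log_le_log (by norm_num) hR'
    linarith
  set σ := Real.sqrt (C1 * Real.log (4 * R + 6)) with hσdef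
  have hlog46 : 0 < Real.log (4 * R + 6) := Real.log_pos (by linarith)
  have hσ : 0 < σ := Real.sqrt_pos.2 (by positivity)
  have hσ2 : σ ^ 2 = C1 * Real.log (4 * R + 6) := Real.sq_sqrt (by positivity)
  set k : ℕ := ⌈20 * lR⌉₊ with hk
  have hk1 : 20 * lR ≤ k := Nat.le_ceil _
  have hk2 : (k : ℝ) < 20 * lR + 1 := Nat.ceil_lt_add_one (by linarith)
  set h : ℝ := 2 * k * σ with hh
  have hh0 : 0 ≤ h := by positivity
  have hq' : ((2 : ℝ≥0∞) * R + 3) ^ 2 * (1 / 4) ^ k ≤ 1 / 5000 := by
    have h1 : ((R : ℝ)) ^ 20 ≤ (4 : ℝ) ^ k := by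
      have e1 : (R : ℝ) ^ 20 = Real.exp (20 * lR) := by
        rw [show (20 : ℝ) * lR = ((20 : ℕ) : ℝ) * lR by norm_num, Real.exp_nat_mul, hlR,
          Real.exp_log (by linarith)]
      have e2 : Real.exp (20 * lR) ≤ Real.exp k := Real.exp_le_exp.2 hk1
      have e3 : Real.exp k = Real.exp 1 ^ k := by
        rw [← Real.exp_nat_mul]; simp
      have e4 : Real.exp 1 ^ k ≤ 4 ^ k := by
        refine pow_le_pow_left₀ (Real.exp_pos _).le ?_ k
        have := Real.exp_one_lt_d9
        linarith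
      rw [e1]
      exact e2.trans (e3.le.trans e4)
    have h2 : (5000 : ℝ) * (2 * R + 3) ^ 2 ≤ (R : ℝ) ^ 20 := by
      have e1 : (2 * (R : ℝ) + 3) ^ 2 ≤ 16 * (R : ℝ) ^ 2 := by nlinarith
      have e2 : (2 : ℝ) ^ 18 ≤ (R : ℝ) ^ 18 := pow_le_pow_left₀ (by norm_num) hR' 18
      have e3 : (R : ℝ) ^ 20 = (R : ℝ) ^ 18 * (R : ℝ) ^ 2 := by ring
      rw [e3]
      nlinarith [sq_nonneg (R : ℝ)]
    have h3 : (5000 : ℝ) * (2 * R + 3) ^ 2 ≤ 4 ^ k := h2.trans h1
    have h4 : (5000 : ℝ≥0∞) * (2 * R + 3) ^ 2 ≤ 4 ^ k := by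
      have h5 := ENNReal.ofReal_le_ofReal h3
      rw [ENNReal.ofReal_mul (by norm_num), ENNReal.ofReal_pow (by positivity),
        ENNReal.ofReal_pow (by norm_num), ENNReal.ofReal_add (by positivity) (by norm_num),
        ENNReal.ofReal_mul (by norm_num), ENNReal.ofReal_natCast] at h5
      simpa using h5
    have h6 : (1 / 4 : ℝ≥0∞) ^ k = ((4 : ℝ≥0∞) ^ k)⁻¹ := by
      rw [one_div, ENNReal.inv_pow]
    rw [h6, one_div]
    have h7 : ((4 : ℝ≥0∞) ^ k)⁻¹ ≤ ((5000 : ℝ≥0∞) * (2 * (R : ℝ≥0∞) + 3) ^ 2)⁻¹ :=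
      ENNReal.inv_le_inv.2 h4
    calc ((2 : ℝ≥0∞) * R + 3) ^ 2 * ((4 : ℝ≥0∞) ^ k)⁻¹
        ≤ (2 * (R : ℝ≥0∞) + 3) ^ 2 * ((5000 : ℝ≥0∞) * (2 * (R : ℝ≥0∞) + 3) ^ 2)⁻¹ := by gcongr
      _ = 5000⁻¹ := by
          have hne : ((2 : ℝ≥0∞) * R + 3) ^ 2 ≠ 0 := by
            refine pow_ne_zero 2 ?_
            simp
          have hnt : ((2 : ℝ≥0∞) * R + 3) ^ 2 ≠ ∞ := by
            refine ENNReal.pow_ne_top ?_
            exact ENNReal.add_ne_top.2 ⟨ENNReal.mul_ne_top (by norm_num)
              (ENNReal.natCast_ne_top R), by norm_num⟩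
          rw [ENNReal.mul_inv (Or.inl (by norm_num)) (Or.inl (by norm_num)), mul_left_comm,
            ENNReal.mul_inv_cancel hne hnt, mul_one]
  -- the bound with mass
  have hmass : ∀ m : ℝ, 0 < m → lm Ω (Set.indicator {f | f x < -(2 * h)} (wt ρ m zstp Ω)) 0 ≤
      (1 / 1000) * lm Ω (wt ρ m zstp Ω) 0 := by
    intro m hm
    choose N0 hN0 using hT m hm
    set N : ℕ := 2 * (R + 1) + ∑ d ∈ box (2 * (R + 1)), N0 d with hN
    have hNR : 2 * (R + 1) ≤ N := by omega
    have hNd : ∀ d ∈ box (2 * (R + 1)), N0 d ≤ N := by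
      intro d hd
      have := Finset.single_le_sum (f := N0) (fun i _ => Nat.zero_le _) hd
      omega
    refine torus_to_domain hρ hm hNR hh0 (q := (1 / 4) ^ k) ?_ hq' hΩ hx
    intro y hy y' hy'
    have hS : SymLC ((muT ρ m N false).map
        (fun f : Tor N → ℝ => f (proj N false y) - 1 * f (proj N false y'))) :=
      gib_symLC (nice_wt hρ m (stpT N false) univ) univ (Dir_ne_zero hρ N)
        (lm_wt_lt_top hρ hm (stpT N false) univ 0).ne _ _ 1
    have hmeas : Measurable
        (fun f : Tor N → ℝ => f (proj N false y) - 1 * f (proj N false y')) := by fun_prop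
    have h2 : ∫⁻ t, ENNReal.ofReal (t ^ 2) ∂((muT ρ m N false).map
        (fun f : Tor N → ℝ => f (proj N false y) - 1 * f (proj N false y'))) ≤
        ENNReal.ofReal (σ ^ 2) := by
      rw [lintegral_map (by fun_prop) hmeas]
      simp only [one_mul]
      rw [Dir_incr hρ hm N y y']
      refine ENNReal.ofReal_le_ofReal ?_
      have hy1 := hy
      have hy2 := hy'
      simp only [box, Finset.mem_product, Finset.mem_Icc] at hy1 hy2
      have hd : y - y' ∈ box (2 * (R + 1)) := by
        simp only [box, Finset.mem_product, Finset.mem_Icc, Prod.fst_sub, Prod.snd_sub]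
        push_cast at hy1 hy2 ⊢
        omega
      refine (hN0 (y - y') N (hNd _ hd)).trans ?_
      rw [hσ2]
      refine mul_le_mul_of_nonneg_left ?_ hC1.le
      simp only [box, Finset.mem_product, Finset.mem_Icc] at hd
      have a1 : |((y - y').1 : ℝ)| ≤ 2 * (R + 1) := by
        rw [abs_le]
        have h1 := hd.1.1
        have h2 := hd.1.2
        push_cast at h1 h2
        constructor
        · have : (-(2 * ((R : ℤ) + 1)) : ℤ) ≤ (y - y').1 := h1
          have := (Int.cast_le (R := ℝ)).2 this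
          push_cast at this ⊢
          linarith
        · have : (y - y').1 ≤ 2 * ((R : ℤ) + 1) := h2
          have := (Int.cast_le (R := ℝ)).2 this
          push_cast at this ⊢
          linarith
      have a2 : |((y - y').2 : ℝ)| ≤ 2 * (R + 1) := by
        rw [abs_le]
        have h1 := hd.2.1
        have h2 := hd.2.2
        push_cast at h1 h2
        constructor
        · have : (-(2 * ((R : ℤ) + 1)) : ℤ) ≤ (y - y').2 := h1
          have := (Int.cast_le (R := ℝ)).2 this
          push_cast at this ⊢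
          linarith
        · have : (y - y').2 ≤ 2 * ((R : ℤ) + 1) := h2
          have := (Int.cast_le (R := ℝ)).2 this
          push_cast at this ⊢
          linarith
      refine Real.log_le_log (by positivity) ?_
      linarith
    have h3 := hS.tail hσ h2 k
    rw [Measure.map_apply hmeas measurableSet_Ici] at h3
    refine le_trans (measure_mono ?_) h3
    intro f hf
    simp only [Set.mem_preimage, Set.mem_Ici, one_mul]
    exact hf
  have hzero := mass_to_zero hρ zstp Ω (S := {f : ℤ × ℤ → ℝ | f x < -(2 * h)})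
    (measurableSet_lt (measurable_pi_apply x) measurable_const) (1 / 1000) hmass
  rw [lm_tail_symm hρ 0 zstp Ω x (2 * h)] at hzero
  refine le_trans ?_ hzero
  refine lmarginal_mono ?_ 0
  refine Set.indicator_le_indicator_of_subset ?_ (fun _ => zero_le)
  intro f hf
  simp only [Set.mem_ofPred_eq] at hf ⊢
  refine lt_of_le_of_lt ?_ hf
  have hs0 : 0 ≤ Real.sqrt lR := Real.sqrt_nonneg _
  have e1 : lR ^ (3 / 2 : ℝ) = lR * Real.sqrt lR := by
    rw [Real.sqrt_eq_rpow, ← Real.rpow_one_add' (by linarith) (by norm_num)]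
    norm_num
  have e2 : σ ≤ 2 * Real.sqrt C1 * Real.sqrt lR := by
    have e3 : Real.log (4 * R + 6) ≤ 4 * lR := by
      have e4 : Real.log (4 * R + 6) ≤ Real.log (7 * R) :=
        Real.log_le_log (by linarith) (by linarith)
      have e5 : Real.log (7 * R) = Real.log 7 + lR := Real.log_mul (by norm_num) (by linarith)
      have e6 : Real.log 7 ≤ 2 := by
        have : Real.log 7 ≤ Real.log (Real.exp 2) := by
          refine Real.log_le_log (by norm_num) ?_
          have h9 : Real.exp 2 = Real.exp 1 ^ 2 := by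
            rw [← Real.exp_nat_mul]; norm_num
          have := Real.exp_one_gt_d9
          rw [h9]
          nlinarith
        rwa [Real.log_exp] at this
      linarith
    have e7 : 2 * Real.sqrt C1 * Real.sqrt lR = Real.sqrt (C1 * (4 * lR)) := by
      rw [Real.sqrt_mul hC1.le, Real.sqrt_mul (by norm_num) lR,
        show (4 : ℝ) = 2 ^ 2 by norm_num, Real.sqrt_sq (by norm_num)]
      ring
    rw [e7, hσdef]
    exact Real.sqrt_le_sqrt (mul_le_mul_of_nonneg_left e3 hC1.le)
  have e8 : (k : ℝ) ≤ 22 * lR := by linarith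
  rw [e1, hh]
  calc 2 * (2 * (k : ℝ) * σ) ≤ 2 * (2 * (22 * lR) * (2 * Real.sqrt C1 * Real.sqrt lR)) := by
        gcongr
    _ = 176 * Real.sqrt C1 * (lR * Real.sqrt lR) := by ring

end Pool.Agent.HM
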