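import Mathlib

/-!
Definitions for the gradient fields with an even log-concave edge weight (the potential is
`U = - log ρ`), for the problem `MP_5fc650_pr`.
-/

open MeasureTheory Finset
open scoped ENNReal

namespace Pool.Agent.HM

/-- An even log-concave edge weight `ρ = exp (-U)` with `ρ 0 = 1`, positive near `0` and not
constant.  Examples: `ρ t = 1` for `|t| ≤ 1` and `0` otherwise; `ρ t = exp (- t ^ 4)`. -/
structure EdgeWeight (ρ : ℝ → ℝ) : Prop where
  nonneg : ∀ t, 0 ≤ ρ t
  zero : ρ 0 = 1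
  even : ∀ t, ρ (-t) = ρ t
  logconcave : ∀ s t a b : ℝ, 0 ≤ a → 0 ≤ b → a + b = 1 → ρ s ^ a * ρ t ^ b ≤ ρ (a * s + b * t)
  pos : ∃ a, 0 < a ∧ 0 < ρ a
  nonconst : ∃ b, ρ b < 1

/-- Lebesgue integral over the coordinates in `W`, the other coordinates being those of `ξ`. -/
noncomputable abbrev lm {G : Type} [DecidableEq G] (W : Finset G) (F : (G → ℝ) → ℝ≥0∞)
    (ξ : G → ℝ) : ℝ≥0∞ :=
  lmarginal (fun _ => (volume : Measure ℝ)) W F ξ

/-- The probability measure with weight `w` in the variables in `W`, with boundary values `ξ`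
outside of `W` (it is a probability measure if `lm W w ξ` is neither `0` nor `∞`). -/
noncomputable def gib {G : Type} [DecidableEq G] (w : (G → ℝ) → ℝ≥0∞) (W : Finset G)
    (ξ : G → ℝ) : Measure (G → ℝ) :=
  (lm W w ξ)⁻¹ • ((Measure.pi (fun _ : W => (volume : Measure ℝ))).map
    (Function.updateFinset ξ W)).withDensity w

section graph
variable {G : Type} [AddCommGroup G] [DecidableEq G]

/-- The edges which touch `W`: the pair `(x, i)` stands for the edge from `x` to `x + stp i`. -/
def edges (stp : Bool → G) (W : Finset G) : Finset (G × Bool) :=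
  (W ×ˢ univ) ∪ (W ×ˢ univ).image (fun p => (p.1 - stp p.2, p.2))

/-- The weight of the field `f` in `W`: all edges which touch `W`, mass `m` in `W`. -/
noncomputable def wt (ρ : ℝ → ℝ) (m : ℝ) (stp : Bool → G) (W : Finset G) (f : G → ℝ) : ℝ≥0∞ :=
  (∏ p ∈ edges stp W, ENNReal.ofReal (ρ (f (p.1 + stp p.2) - f p.1))) *
    ∏ x ∈ W, ENNReal.ofReal (Real.exp (-(m ^ 2 * f x ^ 2 / 2)))

end graph

/-- the box `{-n, …, n}²` -/
noncomputable def box (n : ℕ) : Finset (ℤ × ℤ) := Icc (-(n : ℤ)) n ×ˢ Icc (-(n : ℤ)) n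

/-- the steps of the square lattice -/
def zstp (i : Bool) : ℤ × ℤ := if i then (0, 1) else (1, 0)

/-- the torus with side `2 N + 2` -/
abbrev Tor (N : ℕ) : Type := ZMod (2 * N + 2) × ZMod (2 * N + 2)

/-- the steps in the torus: for `k = false` the usual ones, for `k = true` the diagonal ones -/
def stpT (N : ℕ) (k : Bool) (i : Bool) : Tor N :=
  if k then (if i then (1, -1) else (1, 1)) else (if i then (0, 1) else (1, 0))

/-- the homomorphism from the square lattice to the torus -/
def proj (N : ℕ) (k : Bool) (x : ℤ × ℤ) : Tor N := x.1 • stpT N k false + x.2 • stpT N k true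

/-- the field with mass `m` on the torus -/
noncomputable def muT (ρ : ℝ → ℝ) (m : ℝ) (N : ℕ) (k : Bool) : Measure (Tor N → ℝ) :=
  gib (wt ρ m (stpT N k) univ) univ 0

/-- truncation at height `L` -/
noncomputable def tr (L t : ℝ) : ℝ := max (-L) (min t L)

/-- the truncated two point function on the torus -/
noncomputable def dN (ρ : ℝ → ℝ) (m L : ℝ) (N : ℕ) (k : Bool) (x : ℤ × ℤ) : ℝ :=
  ∫ f, tr L (f 0) * tr L (f (proj N k x)) ∂muT ρ m N k

/-- measurable, even, log-concave, supermodular weights -/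
structure Nice {G : Type} (w : (G → ℝ) → ℝ≥0∞) : Prop where
  meas : Measurable w
  even : ∀ f, w (-f) = w f
  lc : ∀ lam : ℝ, 0 < lam → lam < 1 → ∀ f g, w f ^ lam * w g ^ (1 - lam) ≤
    w (lam • f + (1 - lam) • g)
  sm : ∀ f g, w f * w g ≤ w (f ⊓ g) * w (f ⊔ g)

end Pool.Agent.HM
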