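import Pool.Agent.Lib_helper69.HM.Dir

open MeasureTheory Finset ProbabilityTheory
open scoped ENNReal

namespace Pool.Agent.HM

/-- the second moment from one tail -/
theorem second_of_tail {G : Type} [DecidableEq G] {w : (G → ℝ) → ℝ≥0∞} (hw : Nice w)
    (W : Finset G) (h0 : lm W w 0 ≠ 0) (h1 : lm W w 0 ≠ ∞) (x : G) {a : ℝ} (ha : 0 < a)
    (h : lm W (Set.indicator {f | a < f x} w) 0 ≤ (1 / 5) * lm W w 0) :
    ∫⁻ f, ENNReal.ofReal (f x ^ 2) ∂gib w W 0 ≤ ENNReal.ofReal (400 * a ^ 2) := by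
  have hS := gib_symLC hw W h0 h1 x x 0
  have hmeas : Measurable (fun f : G → ℝ => f x - 0 * f x) := by fun_prop
  have h5 : ((gib w W 0).map (fun f : G → ℝ => f x - 0 * f x)) (Set.Ici (2 * a)) ≤ 1 / 5 := by
    rw [Measure.map_apply hmeas measurableSet_Ici]
    have hsub : (fun f : G → ℝ => f x - 0 * f x) ⁻¹' Set.Ici (2 * a) ⊆ {f | a < f x} := by
      intro f hf
      simp only [Set.mem_preimage, Set.mem_Ici, zero_mul, sub_zero] at hf
      show a < f x
      linarith
    refine (measure_mono hsub).trans ?_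
    rw [gib_apply hw.meas W 0 (measurableSet_lt measurable_const (measurable_pi_apply x))]
    calc (lm W w 0)⁻¹ * lm W (Set.indicator {f | a < f x} w) 0
        ≤ (lm W w 0)⁻¹ * ((1 / 5) * lm W w 0) := by gcongr
      _ = 1 / 5 := by
          rw [mul_left_comm, ENNReal.inv_mul_cancel h0 h1, mul_one]
  have h2 := hS.second (a := 2 * a) (by linarith) h5
  rw [lintegral_map (by fun_prop) hmeas] at h2
  simp only [zero_mul, sub_zero] at h2
  refine h2.trans (ENNReal.ofReal_le_ofReal (by nlinarith))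

/-- zero mean -/
theorem gib_mean {G : Type} [DecidableEq G] {w : (G → ℝ) → ℝ≥0∞} (hw : Nice w)
    (W : Finset G) (x : G) : ∫ f, f x ∂gib w W 0 = 0 := by
  have h1 := gib_map_neg hw W (0 : G → ℝ)
  rw [neg_zero] at h1
  have h2 : ∫ f, f x ∂gib w W 0 = ∫ f, -f x ∂gib w W 0 := by
    conv_lhs => rw [← h1]
    exact integral_map (φ := fun f : G → ℝ => -f) (f := fun f : G → ℝ => f x)
      measurable_neg.aemeasurable (measurable_pi_apply x).aestronglyMeasurable
  rw [integral_neg] at h2
  linarith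

/-- The field with weight `w` in the variables in `W` and the value `0` outside, as a measure on
the functions on `W`. -/
noncomputable def fieldOn {G : Type} [DecidableEq G] (w : (G → ℝ) → ℝ≥0∞) (W : Finset G) :
    Measure (W → ℝ) :=
  (∫⁻ φ : W → ℝ, w (Function.updateFinset (0 : G → ℝ) W φ))⁻¹ •
    (volume : Measure (W → ℝ)).withDensity fun φ => w (Function.updateFinset (0 : G → ℝ) W φ)

theorem gib_eq_map {G : Type} [DecidableEq G] {w : (G → ℝ) → ℝ≥0∞} (hw : Measurable w)
    (W : Finset G) : gib w W 0 = (fieldOn w W).map (Function.updateFinset (0 : G → ℝ) W) := by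
  have hm : Measurable (Function.updateFinset (0 : G → ℝ) W) := measurable_updateFinset
  refine Measure.ext fun S hS => ?_
  rw [gib_apply hw W 0 hS, Measure.map_apply hm hS]
  unfold fieldOn
  rw [Measure.smul_apply, withDensity_apply _ (hm hS), smul_eq_mul]
  congr 1
  unfold lm lmarginal
  rw [← lintegral_indicator (hm hS)]
  rfl

theorem fieldOn_prob {G : Type} [DecidableEq G] {w : (G → ℝ) → ℝ≥0∞} (hw : Measurable w)
    (W : Finset G) (h0 : lm W w 0 ≠ 0) (h1 : lm W w 0 ≠ ∞) :
    IsProbabilityMeasure (fieldOn w W) := by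
  have h2 := gib_prob hw W 0 h0 h1
  rw [gib_eq_map hw W] at h2
  have hm : Measurable (Function.updateFinset (0 : G → ℝ) W) := measurable_updateFinset
  refine ⟨?_⟩
  have h3 := h2.measure_univ
  rw [Measure.map_apply hm MeasurableSet.univ] at h3
  exact h3

/-- the height at a vertex, from the second moment -/
theorem fieldOn_var {G : Type} [DecidableEq G] {w : (G → ℝ) → ℝ≥0∞} (hw : Nice w)
    (W : Finset G) (h0 : lm W w 0 ≠ 0) (h1 : lm W w 0 ≠ ∞) (x : W) {B : ℝ} (hB : 0 ≤ B)
    (h : ∫⁻ f, ENNReal.ofReal (f (x : G) ^ 2) ∂gib w W 0 ≤ ENNReal.ofReal B) :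
    MemLp (fun φ : W → ℝ => φ x) 2 (fieldOn w W) ∧
      ∫ φ, φ x ∂fieldOn w W = 0 ∧ Var[fun φ : W → ℝ => φ x; fieldOn w W] ≤ B := by
  have hP := fieldOn_prob hw.meas W h0 h1
  have hm : Measurable (Function.updateFinset (0 : G → ℝ) W) := measurable_updateFinset
  have hup : ∀ φ : W → ℝ, Function.updateFinset (0 : G → ℝ) W φ (x : G) = φ x := by
    intro φ
    simp [Function.updateFinset]
  rw [gib_eq_map hw.meas W, lintegral_map (by fun_prop) hm] at h
  simp only [hup] at h
  have hmean : ∫ φ, φ x ∂fieldOn w W = 0 := by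
    have h3 := gib_mean hw W (x : G)
    rw [gib_eq_map hw.meas W, integral_map hm.aemeasurable
      (measurable_pi_apply (x : G)).aestronglyMeasurable] at h3
    simpa only [hup] using h3
  have hmx : AEStronglyMeasurable (fun φ : W → ℝ => φ x) (fieldOn w W) :=
    (measurable_pi_apply x).aestronglyMeasurable
  have hint : Integrable (fun φ : W → ℝ => φ x ^ 2) (fieldOn w W) := by
    refine ⟨((measurable_pi_apply x).pow_const 2).aestronglyMeasurable, ?_⟩
    rw [hasFiniteIntegral_iff_ofReal (Filter.Eventually.of_forall fun φ => sq_nonneg _)]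
    exact h.trans_lt ENNReal.ofReal_lt_top
  have hL : MemLp (fun φ : W → ℝ => φ x) 2 (fieldOn w W) :=
    (memLp_two_iff_integrable_sq hmx).2 hint
  refine ⟨hL, hmean, ?_⟩
  rw [variance_eq_sub hL]
  have h4 : ∫ φ, φ x ^ 2 ∂fieldOn w W ≤ B := by
    rw [integral_eq_lintegral_of_nonneg_ae (Filter.Eventually.of_forall fun φ => sq_nonneg _)
      hint.aestronglyMeasurable]
    exact ENNReal.toReal_le_of_le_ofReal hB h
  have h5 : (fieldOn w W)[fun φ : W → ℝ => φ x] = 0 := hmean
  rw [h5]
  simp only [Pi.pow_apply]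
  linarith

end Pool.Agent.HM
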